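import Mathlib
import Pool.Agent.Results.MP_337eac_co.MonotoneNotMC

set_option autoImplicit false

/-!
# For which vocabularies are there substructure-closed classes whose Specker function is not
MC-finite?

Exactly for those with a relation symbol of arity at least two.

If a symbol has arity at least two, graphs can be encoded, and there is a hereditary class of
graphs whose speed is not MC-finite (`MP_337eac_co`).

If all arities are at most one, a structure with universe `Fin n`, `n ≥ 1`, is a word of length `n`
over a finite alphabet `Q`, and membership in the class depends only on the vector `v ∈ ℕ ^ Q`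
of the numbers of occurrences of the letters, in a downward closed way, `v ∈ E`.
By Dickson's lemma there are only finitely many sets of the form `E - v = {w | v + w ∈ E}`, so
that the numbers of the words of length `n` with vector in `E - v` are computed by the iteration
of an integer matrix; by the theorem of Cayley and Hamilton they satisfy a linear recurrence with
constant integer coefficients.
-/

namespace Pool.Agent.Results.MP_602553_lc.Characterization

/-- A finite relational vocabulary: a finite set of relation symbols with their arities (arity `0`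
is allowed). -/
structure Vocab where
  /-- the relation symbols -/
  Sym : Type
  fin : Finite Sym
  /-- the arities -/
  ar : Sym → ℕ

/-- The structures with universe `X`. -/
def Str (τ : Vocab) (X : Type) : Type := ∀ s : τ.Sym, (Fin (τ.ar s) → X) → Prop

/-- The structure induced on `X` by a map from `X` to the universe of a structure. -/
def Str.comap {τ : Vocab} {X Y : Type} (f : X → Y) (R : Str τ Y) : Str τ X :=
  fun s v => R s (f ∘ v)

/-- A substructure-closed class of finite structures (closed under isomorphism), given by its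
members with the universes `Fin n`: if a structure in the class is pulled back along an injective
map from `Fin m`, the result is in the class. -/
def SubstructureClosed {τ : Vocab} (C : ∀ n, Set (Str τ (Fin n))) : Prop :=
  ∀ (m n : ℕ) (f : Fin m → Fin n), Function.Injective f → ∀ R ∈ C n, R.comap f ∈ C m

/-- The Specker function: the number of the members of the class with universe `Fin n`. -/
noncomputable def Sp {τ : Vocab} (C : ∀ n, Set (Str τ (Fin n))) (n : ℕ) : ℤ := ((C n).ncard : ℤ)

/-- MC-finite sequences. -/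
def MCFinite (s : ℕ → ℤ) : Prop :=
  ∀ m : ℕ, 1 ≤ m → ∃ r p : ℕ, 1 ≤ r ∧ 1 ≤ p ∧ ∃ α : ℕ → ℤ, ∀ n, r ≤ n →
    s (n + p + 1) ≡ ∑ i ∈ Finset.range (p + 1), α i * s (n + i) [ZMOD m]

/-- Linear recurrence with constant integer coefficients from some index on. -/
def CFinite (s : ℕ → ℤ) : Prop :=
  ∃ r p : ℕ, ∃ α : ℕ → ℤ, ∀ n, r ≤ n → s (n + p) = ∑ i ∈ Finset.range p, α i * s (n + i)

theorem CFinite.mcFinite {s : ℕ → ℤ} (h : CFinite s) : MCFinite s := by
  obtain ⟨r, p, α, h⟩ := h
  intro m _
  refine ⟨r + 1, p + 1, by omega, by omega, fun i => if i < 2 then 0 else α (i - 2), ?_⟩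
  intro n hn
  have h1 := h (n + 2) (by omega)
  have e1 : n + (p + 1) + 1 = n + 2 + p := by ring
  rw [e1, h1]
  apply Int.ModEq.symm
  have e2 : p + 1 + 1 = p + 2 := by ring
  rw [e2, Finset.sum_range_succ' _ (p + 1), Finset.sum_range_succ' _ p]
  simp only [zero_add]
  rw [if_pos (by norm_num), if_pos (by norm_num)]
  simp only [zero_mul, add_zero]
  have : ∀ i ∈ Finset.range p, (if i + 1 + 1 < 2 then (0 : ℤ) else α (i + 1 + 1 - 2)) *
      s (n + (i + 1 + 1)) = α i * s (n + 2 + i) := by
    intro i _
    rw [if_neg (by omega)]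
    have e3 : i + 1 + 1 - 2 = i := by omega
    have e4 : n + (i + 1 + 1) = n + 2 + i := by ring
    rw [e3, e4]
  rw [Finset.sum_congr rfl this]

theorem CFinite.congr {s t : ℕ → ℤ} (h : CFinite s) (r₀ : ℕ) (hst : ∀ n, r₀ ≤ n → s n = t n) :
    CFinite t := by
  obtain ⟨r, p, α, h⟩ := h
  refine ⟨r + r₀, p, α, ?_⟩
  intro n hn
  rw [← hst (n + p) (by omega), h n (by omega)]
  apply Finset.sum_congr rfl
  intro i _
  rw [hst (n + i) (by omega)]

/-! ### Vectors of multiplicities -/

section Words

variable {Q : Type}

open Classical in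
/-- The vector of the numbers of occurrences. -/
noncomputable def cnt {n : ℕ} (c : Fin n → Q) : Q → ℕ :=
  fun q => (Finset.univ.filter fun i => c i = q).card

open Classical in
/-- The unit vectors. -/
noncomputable def unit (q : Q) : Q → ℕ := fun q' => if q = q' then 1 else 0

theorem cnt_cons {n : ℕ} (q : Q) (c : Fin n → Q) :
    cnt (Fin.cons q c : Fin (n + 1) → Q) = unit q + cnt c := by
  classical
  funext q'
  simp only [cnt, unit, Pi.add_apply, Finset.card_filter]
  rw [Fin.sum_univ_succ]
  simp

/-- If the vector of `c` is at most the vector of `c'`, then `c` is the pullback of `c'` along an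
injection. -/
theorem exists_inj {n m : ℕ} (c : Fin n → Q) (c' : Fin m → Q) (h : cnt c ≤ cnt c') :
    ∃ f : Fin n → Fin m, Function.Injective f ∧ c = c' ∘ f := by
  classical
  have h1 : ∀ q, Nonempty ({i // c i = q} ↪ {j // c' j = q}) := by
    intro q
    apply Function.Embedding.nonempty_of_card_le
    have := h q
    simpa [cnt, Fintype.card_subtype] using this
  let e := fun q => (h1 q).some
  refine ⟨fun i => (e (c i) ⟨i, rfl⟩).1, ?_, ?_⟩
  · intro i j hij
    have hi := (e (c i) ⟨i, rfl⟩).2
    have hj := (e (c j) ⟨j, rfl⟩).2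
    simp only at hij
    have hc : c i = c j := by rw [← hi, ← hj, hij]
    have h2 : ∀ (q : Q) (hq : c j = q), (e (c j) ⟨j, rfl⟩).1 = (e q ⟨j, hq⟩).1 := by
      rintro _ rfl
      rfl
    rw [h2 (c i) hc.symm] at hij
    have h3 := (e (c i)).injective (Subtype.ext hij)
    exact congrArg Subtype.val h3
  · funext i
    exact ((e (c i) ⟨i, rfl⟩).2).symm

/-- The shift of a set of vectors. -/
def shift (E : Set (Q → ℕ)) (v : Q → ℕ) : Set (Q → ℕ) := {w | v + w ∈ E}

theorem shift_shift (E : Set (Q → ℕ)) (v w : Q → ℕ) : shift (shift E v) w = shift E (v + w) := by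
  ext u
  simp only [shift, Set.mem_ofPred_eq, add_assoc]

theorem shift_zero (E : Set (Q → ℕ)) : shift E 0 = E := by
  ext u
  simp [shift]

/-- By Dickson's lemma a downward closed set has only finitely many shifts. -/
theorem finite_shifts [Finite Q] (E : Set (Q → ℕ)) (hE : ∀ v w, v ≤ w → w ∈ E → v ∈ E) :
    (Set.range (shift E)).Finite := by
  classical
  have _ := Fintype.ofFinite Q
  by_contra hinf
  have hinf' : (Set.range (shift E)).Infinite := hinf
  let e := hinf'.natEmbedding
  have hv : ∀ i, ∃ v, shift E v = (e i).1 := fun i => (e i).2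
  choose v hv using hv
  have hpwo : (Set.univ : Set (Q → ℕ)).IsPWO := Set.isPWO_of_wellQuasiOrderedLE _
  obtain ⟨g, hg⟩ := hpwo.exists_monotone_subseq (f := v) (fun _ => Set.mem_univ _)
  have hanti : ∀ i j, i ≤ j → shift E (v (g j)) ⊆ shift E (v (g i)) := by
    intro i j hij w hw
    exact hE _ _ (add_le_add (hg hij) le_rfl) hw
  have hne : ∀ i, ∃ w, w ∈ shift E (v (g i)) ∧ w ∉ shift E (v (g (i + 1))) := by
    intro i
    by_contra hcon
    push Not at hcon
    have heq : shift E (v (g i)) = shift E (v (g (i + 1))) :=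
      Set.Subset.antisymm hcon (hanti i (i + 1) (by omega))
    rw [hv, hv] at heq
    have := g.injective (e.injective (Subtype.ext heq))
    omega
  choose w hw1 hw2 using hne
  obtain ⟨g', hg'⟩ := hpwo.exists_monotone_subseq (f := w) (fun _ => Set.mem_univ _)
  have h01 : g' 0 < g' 1 := g'.strictMono (by norm_num)
  have h1 : w (g' 0) ≤ w (g' 1) := hg' (by norm_num)
  apply hw2 (g' 0)
  have h2 := hanti (g' 0 + 1) (g' 1) (by omega) (hw1 (g' 1))
  exact hE _ _ (add_le_add le_rfl h1) h2

/-- The number of words of length `n` with vector in `E`. -/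
noncomputable def num (E : Set (Q → ℕ)) (n : ℕ) : ℤ := ({c : Fin n → Q | cnt c ∈ E}.ncard : ℤ)

theorem num_succ [Fintype Q] (E : Set (Q → ℕ)) (n : ℕ) :
    num E (n + 1) = ∑ q : Q, num (shift E (unit q)) n := by
  classical
  have h1 : ∀ q : Q, Nat.card {c : Fin n → Q // cnt c ∈ shift E (unit q)} =
      {c : Fin n → Q | cnt c ∈ shift E (unit q)}.ncard := fun q => rfl
  have h2 : Nat.card {c : Fin (n + 1) → Q // cnt c ∈ E} =
      {c : Fin (n + 1) → Q | cnt c ∈ E}.ncard := rfl
  unfold num
  rw [← h2]
  simp_rw [← h1]
  rw [← Nat.cast_sum, ← Nat.card_sigma]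
  congr 1
  apply Nat.card_congr
  refine ⟨fun c => ⟨c.1 0, ⟨Fin.tail c.1, ?_⟩⟩, fun d => ⟨Fin.cons d.1 d.2.1, ?_⟩, ?_, ?_⟩
  · change unit (c.1 0) + cnt (Fin.tail c.1) ∈ E
    rw [← cnt_cons, Fin.cons_self_tail]
    exact c.2
  · rw [cnt_cons]
    exact d.2.2
  · intro c
    apply Subtype.ext
    exact Fin.cons_self_tail c.1
  · rintro ⟨q, c, hc⟩
    rfl

/-- The numbers of words with vector in a downward closed set satisfy a linear recurrence. -/
theorem cfinite_num [Finite Q] (E : Set (Q → ℕ)) (hE : ∀ v w, v ≤ w → w ∈ E → v ∈ E) :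
    CFinite (num E) := by
  classical
  have _ := Fintype.ofFinite Q
  set T := Set.range (shift E) with hT
  have hfin : Finite T := finite_shifts E hE
  have _ := Fintype.ofFinite T
  -- the transition maps
  let δ : T → Q → T := fun t q => ⟨shift t.1 (unit q), by
    obtain ⟨v, hv⟩ := t.2
    exact ⟨v + unit q, by rw [← hv, shift_shift]⟩⟩
  let L : (T → ℤ) →ₗ[ℤ] (T → ℤ) := 
    { toFun := fun f t => ∑ q : Q, f (δ t q)
      map_add' := fun f g => by
        funext t
        simp [Finset.sum_add_distrib]
      map_smul' := fun a f => by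
        funext t
        simp [Finset.mul_sum] }
  let u : ℕ → T → ℤ := fun n t => num t.1 n
  have hu : ∀ n, u (n + 1) = L (u n) := by
    intro n
    funext t
    exact num_succ t.1 n
  have hu2 : ∀ k n, u (n + k) = (L ^ k) (u n) := by
    intro k n
    induction k with
    | zero => simp
    | succ k ih =>
      rw [pow_succ', ← add_assoc, hu, ih]
      rfl
  have hch := LinearMap.aeval_self_charpoly L
  have hmon := LinearMap.charpoly_monic L
  set χ := L.charpoly with hχ
  refine ⟨0, χ.natDegree, fun i => - χ.coeff i, ?_⟩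
  intro n _
  have h1 : ∑ i ∈ Finset.range (χ.natDegree + 1), χ.coeff i • (L ^ i) (u n) = 0 := by
    have h2 : (Polynomial.aeval L χ) (u n) = 0 := by rw [hch]; rfl
    rw [Polynomial.aeval_eq_sum_range, LinearMap.sum_apply] at h2
    exact h2
  have t₀ : T := ⟨E, ⟨0, shift_zero E⟩⟩
  have h3 := congrFun h1 ⟨E, ⟨0, shift_zero E⟩⟩
  simp_rw [← hu2] at h3
  rw [Finset.sum_apply, Finset.sum_range_succ, hmon.coeff_natDegree] at h3
  simp only [Pi.smul_apply, Pi.zero_apply, smul_eq_mul, one_mul] at h3
  have h4 : num E (n + χ.natDegree) =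
      - ∑ i ∈ Finset.range χ.natDegree, χ.coeff i * num E (n + i) := by
    have : u (n + χ.natDegree) ⟨E, ⟨0, shift_zero E⟩⟩ = num E (n + χ.natDegree) := rfl
    rw [← this]
    exact eq_neg_of_add_eq_zero_right h3
  rw [h4, ← Finset.sum_neg_distrib]
  apply Finset.sum_congr rfl
  intro i _
  ring

end Words

/-! ### Vocabularies with arities at most one -/

section Unary

variable {τ : Vocab}

/-- The colouring of the universe by a structure. -/
def col {X : Type} (R : Str τ X) : X → (τ.Sym → Prop) := fun x s => R s (fun _ => x)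

theorem col_comap {X Y : Type} (f : X → Y) (R : Str τ Y) : col (R.comap f) = col R ∘ f := rfl

theorem col_injective (hτ : ∀ s, τ.ar s ≤ 1) {X : Type} [Nonempty X] :
    Function.Injective (col : Str τ X → X → (τ.Sym → Prop)) := by
  intro R R' h
  funext s v
  obtain ⟨x₀⟩ := ‹Nonempty X›
  have hv : ∃ x : X, v = fun _ => x := by
    by_cases hs : τ.ar s = 0
    · refine ⟨x₀, ?_⟩
      funext i
      have := i.isLt
      omega
    · refine ⟨v ⟨0, by omega⟩, ?_⟩
      funext i
      congr 1
      apply Fin.ext
      have := i.isLt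
      have := hτ s
      simp only
      omega
  obtain ⟨x, rfl⟩ := hv
  exact congrFun (congrFun h x) s

/-- If all arities are at most one, the Specker function of every substructure-closed class
satisfies a linear recurrence with constant integer coefficients. -/
theorem cfinite_of_unary (hτ : ∀ s, τ.ar s ≤ 1) (C : ∀ n, Set (Str τ (Fin n)))
    (hC : SubstructureClosed C) : CFinite (Sp C) := by
  classical
  have _ := τ.fin
  let E : Set ((τ.Sym → Prop) → ℕ) :=
    {v | ∃ (n : ℕ) (R : Str τ (Fin n)), 1 ≤ n ∧ R ∈ C n ∧ v ≤ cnt (col R)}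
  have hE : ∀ v w, v ≤ w → w ∈ E → v ∈ E := by
    rintro v w hvw ⟨n, R, hn, hR, h⟩
    exact ⟨n, R, hn, hR, hvw.trans h⟩
  refine (cfinite_num E hE).congr 1 ?_
  intro n hn
  have _ : Nonempty (Fin n) := ⟨⟨0, by omega⟩⟩
  have h1 : {c : Fin n → (τ.Sym → Prop) | cnt c ∈ E} = col '' (C n) := by
    ext c
    constructor
    · rintro ⟨m, R, hm, hR, h⟩
      obtain ⟨f, hf, hc⟩ := exists_inj c (col R) h
      exact ⟨R.comap f, hC n m f hf R hR, by rw [col_comap, hc]⟩
    · rintro ⟨R, hR, rfl⟩
      exact ⟨n, R, hn, hR, le_rfl⟩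
  unfold num Sp
  rw [h1, Set.ncard_image_of_injective _ (col_injective hτ)]

end Unary

/-! ### Vocabularies with a symbol of arity at least two -/

section Binary

variable {τ : Vocab} (s₀ : τ.Sym) (h₀ : 2 ≤ τ.ar s₀)

/-- A graph as a structure: the first two arguments of `s₀` are adjacent; the other relations are
empty. -/
def enc {X : Type} (G : SimpleGraph X) : Str τ X := fun s v =>
  ∃ h : s = s₀, G.Adj (v ⟨0, by rw [h]; omega⟩) (v ⟨1, by rw [h]; omega⟩)

theorem enc_comap {X Y : Type} (f : X → Y) (G : SimpleGraph Y) :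
    (enc s₀ h₀ G).comap f = enc s₀ h₀ (G.comap f) := rfl

theorem enc_injective {X : Type} :
    Function.Injective (enc s₀ h₀ : SimpleGraph X → Str τ X) := by
  intro G H h
  ext x y
  have h1 := congrFun (congrFun h s₀) (fun i => if i.1 = 0 then x else y)
  have h2 : ∀ K : SimpleGraph X, enc s₀ h₀ K s₀ (fun i => if i.1 = 0 then x else y) ↔
      K.Adj x y := by
    intro K
    simp [enc]
  rw [← h2 G, ← h2 H, h1]

end Binary

/-- **Answer to Q1.**  Let `τ` be a finite relational vocabulary.  There is a substructure-closed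
class of finite `τ`-structures whose Specker function is not MC-finite if and only if `τ` has a
relation symbol of arity at least two.  (In particular, for vocabularies with arities at most two
the answer is yes exactly if `τ` has a binary symbol.) -/
theorem result (τ : Vocab) :
    (∃ C : ∀ n, Set (Str τ (Fin n)), SubstructureClosed C ∧ ¬ MCFinite (Sp C)) ↔
      ∃ s : τ.Sym, 2 ≤ τ.ar s := by
  constructor
  · rintro ⟨C, hC, hns⟩
    by_contra hcon
    push Not at hcon
    exact hns (cfinite_of_unary (fun s => by have := hcon s; omega) C hC).mcFinite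
  · rintro ⟨s₀, h₀⟩
    obtain ⟨C, -, hC, hns⟩ := Pool.Agent.Results.MP_337eac_co.MonotoneNotMC.result
    refine ⟨fun n => enc s₀ h₀ '' C n, ?_, ?_⟩
    · rintro m n f hf _ ⟨G, hG, rfl⟩
      rw [enc_comap]
      refine ⟨_, hC m n _ G ⟨SimpleGraph.Embedding.comap ⟨f, hf⟩ G⟩ hG, rfl⟩
    · intro hmc
      apply hns
      have hsp : ∀ n, Sp (fun n => enc s₀ h₀ '' C n) n =
          Pool.Agent.Results.MP_337eac_co.MonotoneNotMC.speed C n := by
        intro n
        unfold Sp Pool.Agent.Results.MP_337eac_co.MonotoneNotMC.speed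
        simp only
        rw [Set.ncard_image_of_injective _ (enc_injective s₀ h₀)]
      intro m hm
      obtain ⟨r, p, hr, hp, α, h⟩ := hmc m hm
      refine ⟨r, p + 1, hr, by omega, α, ?_⟩
      intro n hn
      have h1 := h n hn
      simp_rw [hsp] at h1
      rw [← add_assoc]
      exact h1

end Pool.Agent.Results.MP_602553_lc.Characterization
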